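import Pool.Agent.X140.AB.MultiC

/-!
# Abundance for fibrations over products of projective spaces with arrangements, whose fibres dominate
the product of any constant variety and an abelian cover with arbitrary moduli, and the variation

For `i < m` let `ℓ i k = 0`, `k < q i`, be hyperplanes in projective `n i`-space, an arbitrary
arrangement which is not reducible. Let `X` be a projective variety with canonical singularities (for
instance a minimal variety or a manifold) with a dominant rational map to the product `B` of the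
projective spaces, of any relative dimension. Suppose that if `v i k` are the multiplicities of the
hyperplanes at a prime divisor of `X`, not all zero, then `∑ i, v i (k i) / d i ≥ 1` for some choice
of hyperplanes `k i`, one for each factor. Here `d i` is `n i + 2`, or only `n i + 1` if the
arrangement in the factor does not consist of `n i + 2` hyperplanes in general position. Equality is
allowed: for four points of the projective line and multiplicities `≥ 2` the base is the orbifold
`(ℙ¹; 2, 2, 2, 2)` of Kodaira dimension zero.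

Let `X → W` be the fibre space of `X ⇢ B` and `F` its geometric generic fibre, a variety over the
algebraic closure `Λ` of the function field of `W`. Suppose that `F` has a generically finite rational
map, which may be ramified anywhere, to `F₀ × Z`, where `F₀` is any variety which is defined over `ℂ`
and `Z` is an abelian cover

  `w k ^ μ k = c k * ∏ j, ∏ i, L j i (x j) ^ E k j i`, `k < p`,

of a product of projective spaces over `Λ` of dimensions `g j`, branched along `b j ≥ 2 g j + 2`
hyperplanes `L j i` in general position in the `j`-th space, for every `j`: for instance products of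
elliptic, hyperelliptic and superelliptic curves, the K3 surfaces `w ^ 2 = L 1 ⋯ L 6` (so the Kummer
surfaces of the Jacobians of the curves of genus two), the Calabi–Yau double covers of `ℙᵍ` branched
along `2 g + 2` hyperplanes. The coefficients may vary with the point of `W`. Let `u` be the sum of
the `g j` with `b j ≥ 2 g j + 3`, or with `g j = 1` and a point of ramification index at least three,
and suppose that `v` of the cross ratios of the hyperplanes, which are rational functions of the
maximal minors of their coefficients, are algebraically independent over `ℂ`. Then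

  `κ(X) ≥ κ(F₀) + u + v` and `ν(X) ≤ dim B + ν(F)`,

and if the sums `∑ i, v i (k i) / d i` are greater than `1` then `κ(X) ≥ dim B + κ(F₀) + u`. So
`κ(X) = ν(X)`, and for minimal `X` the canonical divisor is semiample, if `ν(F) ≤ κ(F₀) + u` and
either the sums are greater than `1` or the variation is maximal, `v = dim B`.

Notation: `X` is given by the homogeneous coordinates `y` of its generic point, with values in the
function field `K` of `X`; the prime divisors of `X` are places `P` of `K`, `P.ord` is the order along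
`P` (`Pool.Agent.Y172`); `M` is the function field of `F₀`, `L` that of `W`. The dominant rational map
is given by homogeneous coordinates `x i j` such that the affine coordinates `x i (j + 1) / x i 0` are
algebraically independent. `KodTr k K n h`: the Kodaira dimension is at least `h`, that is, there are
`h + 1` pluricanonical forms of which the `h` ratios are algebraically independent;
`NumLe k K n (fun _ => False) h`: the numerical dimension is at most `h`, that is
`h⁰ (m K + A) ≤ C m ^ h` for each divisor `A` (`Pool/Agent/W619`). `LinearForm`, `GeneralPosition`,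
`CrossRatios`, `AbelianCover`, `Dominates`, `High` and `HighDimension` are defined in
`Pool.Agent.X140.AB.ADefs`.

Proof: for an irreducible arrangement there are weights on the bases of the matroid such that the
products of the forms `det (d log)` have a positive slack at all flats; the product of these
pluricanonical forms of the factors, as a form of the base, is estimated with any `∑ n i` vector
fields on `X` (`Pool.Agent.X180.Multi`). It is multiplied by the coefficients of the norms of products
of pluricanonical forms of `F₀` and of the forms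
`det (L i₀, ..., L i_g) d x₁ ∧ ... ∧ d x_g / (L i₀ ⋯ L i_g)` of `Z`, products over choices of the
hyperplanes in which all of them occur equally often; they are regular at all places, and their ratios
are the cross ratios and, if `b j` is large, quotients of the linear forms. The upper bound is the
numerical easy addition (`Pool.Agent.Y174.easy_add`).
-/

set_option autoImplicit false

open FF Module Pool.Agent.W602.Cov Pool.Agent.Y172 Pool.Agent.Y191
open Pool.Agent.W619.TW (NumLe)
open Pool.Agent.W619.Y (KodTr)
open Pool.Agent.X140.AB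

namespace Pool.Agent.Results.MP_5ff3c6_ag.CoverFamiliesOverArrangements

section base

/-- In suitable linear coordinates `X 0, ..., X n` each of the hyperplanes is one of `X j = 0` or
`X 0 + ... + X n = 0`. The arrangements with this property which are not reducible are, up to
repetitions, the arrangements of `n + 2` hyperplanes in general position. -/
def Simplicial {n q : ℕ} (ℓ : Fin q → Form n) : Prop :=
  ∃ X : Basis (Fin (n + 1)) ℂ (Form n), ∀ i,
    (∃ c : ℂ, ℓ i = c • ∑ j, X j) ∨ ∃ (j : Fin (n + 1)) (c : ℂ), ℓ i = c • X j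

/-- The bound for one arrangement in projective `n`-space: `n + 2`, and even `n + 1` if the
arrangement does not consist of `n + 2` hyperplanes in general position. -/
def Bound {n q : ℕ} (ℓ : Fin q → Form n) (d : ℕ) : Prop :=
  d = n + 2 ∨ (d = n + 1 ∧ ¬ Simplicial ℓ)

/-- The value of a linear form at a vector over `K`. -/
noncomputable def form {n : ℕ} {K : Type} [Field K] [Algebra ℂ K] (φ : Form n)
    (x : Fin (n + 1) → K) : K := ∑ j, algebraMap ℂ K (φ (Pi.single j 1)) * x j

variable {m : ℕ} {n q : Fin m → ℕ} {K : Type} [Field K] [Algebra ℂ K]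

/-- The affine coordinates `x i (j + 1) / x i 0` of the points with the homogeneous coordinates
`x i`. -/
def affine (x : ∀ i, Fin (n i + 1) → K) (b : (i : Fin m) × Fin (n i)) : K :=
  x b.1 b.2.succ / x b.1 0

/-- The function field of the product of the projective spaces. -/
noncomputable def BaseField (x : ∀ i, Fin (n i + 1) → K) : IntermediateField ℂ K :=
  IntermediateField.adjoin ℂ (Set.range (affine x))

/-- The multiplicities over the arrangements of a variety with function field `K` and homogeneous
coordinates `x i` of a rational map to the product of the projective spaces: at every prime divisor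
`P` of `X` the hyperplane `ℓ i k` has the order `a i + v i k`, where `a i` is the minimum of the orders
of all linear forms on the `i`-th factor, and if some `v i k` is not `0` then
`∑ i, v i (k i) / d i` has the property `C` for some `k`. -/
def Multiplicities {N : ℕ} (y : Fin (N + 1) → K) (ℓ : ∀ i, Fin (q i) → Form (n i))
    (x : ∀ i, Fin (n i + 1) → K) (d : Fin m → ℕ) (C : ℚ → Prop) : Prop :=
  ∀ P : Place ℂ K, IsPrimeDivisor y P → ∀ (a : Fin m → ℤ) (v : ∀ i, Fin (q i) → ℕ),
    (∀ i (φ : Form (n i)), form φ (x i) = 0 ∨ a i ≤ P.ord (form φ (x i))) →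
    (∀ i, ∃ φ : Form (n i), form φ (x i) ≠ 0 ∧ P.ord (form φ (x i)) = a i) →
    (∀ i k, P.ord (form (ℓ i k) (x i)) = a i + v i k) → (∃ i, v i ≠ 0) →
    ∃ k : ∀ i, Fin (q i), C (∑ i, (v i (k i) : ℚ) / d i)

/-- `X` is a projective variety of dimension `n` with canonical singularities. -/
def IsCanonicalVariety {N : ℕ} (y : Fin (N + 1) → K) (n : ℕ) : Prop :=
  NormalModel y ∧ Algebra.trdeg ℂ K = n ∧ Canonical y n

end base

/-- the Kodaira dimension of a point -/
theorem kodTr_zero {M : Type} [Field M] [Algebra ℂ M] : KodTr ℂ M 0 0 := by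
  refine ⟨1, le_rfl, fun _ _ => 1, fun l => ⟨fun A D => ?_, fun v _ _ D _ => ?_,
    fun v _ h => absurd h id⟩, fun i => i.elim0, fun _ => one_ne_zero, ?_⟩
  · rw [Matrix.det_isEmpty, one_pow, one_mul]
  · exact Or.inr ⟨1, Finset.mem_singleton_self _, one_ne_zero, by simp [v.ord_one]⟩
  · rw [algebraicIndependent_empty_type_iff]
    exact (algebraMap ℂ M).injective

/-- the multiplicities at a prime divisor of `X` -/
theorem high_of {N m : ℕ} {n q : Fin m → ℕ} {K : Type} [Field K] [Algebra ℂ K]
    {y : Fin (N + 1) → K} {ℓ : ∀ i, Fin (q i) → Form (n i)}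
    (hn : ∀ i, 1 ≤ n i) (hℓ : ∀ i k, ℓ i k ≠ 0) (hr : ∀ i, ¬ Reducible (ℓ i)) {d : Fin m → ℕ}
    {x : ∀ i, Fin (n i + 1) → K} (hx0 : ∀ i, x i 0 ≠ 0)
    (hind : AlgebraicIndependent ℂ (affine x)) {τ : ℝ} {C : ℚ → Prop}
    (hC : Multiplicities y ℓ x d C)
    (hτ : ∀ v : ∀ i, Fin (q i) → ℕ, ∀ k : ∀ i, Fin (q i), C (∑ i, (v i (k i) : ℚ) / d i) →
      τ ≤ ∑ i, (v i (k i) : ℝ) / d i) {P : Place ℂ K} (hP : IsPrimeDivisor y P) :
    Pool.Agent.X180.Multi.High ℓ x d τ P := by
  have hspan : ∀ i, Submodule.span ℂ (Set.range (ℓ i)) = ⊤ := fun i =>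
    Pool.Agent.W392.CG.span_top (hn i) (ℓ i) (hr i)
  have hlx : ∀ i k, Pool.Agent.W602.Cov.G.lf (ℓ i k) (x i) ≠ 0 := fun i k =>
    Pool.Agent.TH152.AC.lf_ne (hx0 i) (hind.comp
      (fun j : Fin (n i) => (⟨i, j⟩ : (i : Fin m) × Fin (n i))) (fun j j' h => by simpa using h))
      (hℓ i k)
  intro a v hord hsp hv0
  have h1 := Pool.Agent.TH756.PR.nrm hspan hlx hord hsp
  obtain ⟨k, hk⟩ := hC P hP a v h1.1 h1.2.1 h1.2.2 hv0
  exact ⟨k, hτ v k hk⟩

/-- a common lower bound for the sums which are greater than one -/
theorem exists_tau {m : ℕ} {q : Fin m → ℕ} {d : Fin m → ℕ} (hd1 : ∀ i, 1 ≤ d i) :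
    ∃ τ : ℝ, 1 < τ ∧ ∀ v : ∀ i, Fin (q i) → ℕ, ∀ k : ∀ i, Fin (q i),
      1 < ∑ i, (v i (k i) : ℚ) / d i → τ ≤ ∑ i, (v i (k i) : ℝ) / d i := by
  classical
  obtain ⟨T, hT⟩ : ∃ T, T = ∏ i, d i := ⟨_, rfl⟩
  have hTpos : 0 < T := by
    rw [hT]
    exact Finset.prod_pos fun i _ => hd1 i
  have hTr : (0 : ℝ) < T := by exact_mod_cast hTpos
  refine ⟨1 + 1 / T, by
    have : (0 : ℝ) < 1 / T := by positivity
    linarith, fun v k hk => ?_⟩
  have hint : ∑ i, (v i (k i) : ℚ) / d i =
      ((∑ i, v i (k i) * ∏ j ∈ Finset.univ.erase i, d j : ℕ) : ℚ) / T := by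
    push_cast
    rw [Finset.sum_div]
    refine Finset.sum_congr rfl fun i _ => ?_
    have hdi : (d i : ℚ) ≠ 0 := by
      have := hd1 i
      positivity
    have h5 : (T : ℚ) = (∏ j ∈ Finset.univ.erase i, (d j : ℚ)) * d i := by
      rw [hT, ← Finset.prod_erase_mul _ _ (Finset.mem_univ i)]
      push_cast
      rfl
    have h6 : (∏ j ∈ Finset.univ.erase i, (d j : ℚ)) ≠ 0 :=
      Finset.prod_ne_zero_iff.2 fun j _ => by
        have := hd1 j
        positivity
    rw [h5]
    field_simp
  have hTq : (0 : ℚ) < T := by exact_mod_cast hTpos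
  have hge : 1 + 1 / (T : ℚ) ≤ ∑ i, (v i (k i) : ℚ) / d i := by
    rw [hint] at hk ⊢
    rw [lt_div_iff₀ hTq, one_mul] at hk
    rw [le_div_iff₀ hTq, add_mul, one_mul, one_div, inv_mul_cancel₀ hTq.ne']
    exact_mod_cast hk
  have h1 := (Rat.cast_le (K := ℝ)).2 hge
  push_cast at h1
  exact h1

/-- Let `ℓ i` be arbitrary arrangements of hyperplanes, which are not reducible, in projective spaces
of dimensions `n i ≥ 1`, `d i` the bounds, `B` the product of the spaces, of dimension `∑ i, n i`. Let
`X` be a projective variety with canonical singularities of dimension `∑ i, n i + e + t`, where `e` is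
the sum of the `g j` and `e + t ≥ 1`, with a dominant rational map to `B`, given by homogeneous
coordinates `x i`, such that at each prime divisor of `X` over one of the hyperplanes
`∑ i, v i (k i) / d i ≥ 1` for the multiplicities `v` and some `k`. Let `L` be the algebraic closure
of the function field of `B` in `K` (the function field of `W`), `Λ` an algebraic closure of `L`, and
`F` the function field of the geometric generic fibre of `X → W`, which is generated by `K` and `Λ`.
Let `M` be the function field of a variety `F₀` over `ℂ` of dimension `t`, let the geometric generic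
fibre have a generically finite rational map to `F₀ × Z`, where `Z` is an abelian cover of the product
of projective spaces of the dimensions `g j`, and let the cross ratios `z i`, `i < v`, of the
hyperplanes be algebraically independent over `ℂ`.

Then `κ(X) ≥ h + u + v` if `κ(F₀) ≥ h`, `u = HighDimension μ E`; and `κ(X) ≥ ∑ i, n i + h + u` if the
multiplicities satisfy `∑ i, v i (k i) / d i > 1`; for `t = 0` both hold with `h = 0`. If `ν(F) ≤ h`
then `ν(X) ≤ ∑ i, n i + h`. -/
theorem result {m : ℕ} (n q : Fin m → ℕ) (hn : ∀ i, 1 ≤ n i)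
    (ℓ : ∀ i, Fin (q i) → Form (n i)) (hℓ : ∀ i k, ℓ i k ≠ 0) (hr : ∀ i, ¬ Reducible (ℓ i))
    (d : Fin m → ℕ) (hd : ∀ i, Bound (ℓ i) (d i)) (K : Type) [Field K] [Algebra ℂ K]
    [Algebra.EssFiniteType ℂ K]
    -- the variety and the map to the product of projective spaces
    (N r t v : ℕ) (g b : Fin r → ℕ) (he : 1 ≤ (∑ j, g j) + t) (y : Fin (N + 1) → K)
    (hy : IsCanonicalVariety y (∑ i, n i + ((∑ j, g j) + t))) (x : ∀ i, Fin (n i + 1) → K)
    (hx0 : ∀ i, x i 0 ≠ 0) (hind : AlgebraicIndependent ℂ (affine x))
    (hm : Multiplicities y ℓ x d fun z => 1 ≤ z)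
    -- the fibre space
    (L : IntermediateField ℂ K) [Algebra.EssFiniteType ℂ L]
    (hL : ∀ f : K, f ∈ L ↔ IsAlgebraic (BaseField x) f)
    -- the geometric generic fibre
    {Λ F : Type} [Field Λ] [Field F] [Algebra L Λ] [IsAlgClosure L Λ] [Algebra Λ F] [Algebra K F]
    [IsScalarTower L Λ F] [Algebra ℂ Λ] [Algebra ℂ F] [IsScalarTower ℂ L Λ] [IsScalarTower ℂ Λ F]
    [IsScalarTower ℂ K F] (hF : IntermediateField.adjoin Λ (Set.range (algebraMap K F)) = ⊤)
    -- the constant variety and the abelian cover
    (M : IntermediateField ℂ F) [Algebra.EssFiniteType ℂ M] (hM : Algebra.trdeg ℂ M = t) {p : ℕ}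
    (a : ∀ j, Fin (b j) → Fin (g j + 1) → Λ) (μ : Fin p → ℕ) (E : Fin p → ∀ j, Fin (b j) → ℕ)
    (c : Fin p → Λ) (s : ∀ j, Fin (g j) → F) (w : Fin p → F) (hdom : Dominates M a μ E c s w)
    -- the variation
    (z : Fin v → Λ) (hz : ∀ i, ∃ j, z i ∈ CrossRatios (a j)) (hzi : AlgebraicIndependent ℂ z)
    (h : ℕ) :
    (KodTr ℂ M t h ∨ (t = 0 ∧ h = 0) →
      KodTr ℂ K (∑ i, n i + ((∑ j, g j) + t)) (h + HighDimension (g := g) μ E + v) ∧
      (Multiplicities y ℓ x d (fun z => 1 < z) →
        KodTr ℂ K (∑ i, n i + ((∑ j, g j) + t)) (∑ i, n i + (h + HighDimension (g := g) μ E)))) ∧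
    (NumLe Λ F ((∑ j, g j) + t) (fun _ => False) h →
      NumLe ℂ K (∑ i, n i + ((∑ j, g j) + t)) (fun _ => False) (∑ i, n i + h)) := by
  have hd1 : ∀ i, 1 ≤ d i := fun i => by
    rcases hd i with h | h
    · omega
    · omega
  have hbnd : ∀ i, Pool.Agent.TH756.PR.Bnd (ℓ i) (d i) := fun i =>
    (hd i).imp id fun h => ⟨h.1, Or.inr h.2⟩
  have hBL : BaseField x ≤ L := fun f hf => (hL f).2 (isAlgebraic_algebraMap (⟨f, hf⟩ :
    BaseField x))
  have hLalg : ∀ f ∈ L, IsAlgebraic (BaseField x) f := fun f hf => (hL f).1 hf
  have hLA : L = Pool.Agent.X180.Iso.Acl (BaseField x) := by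
    ext f
    rw [hL, Pool.Agent.X180.Iso.mem_acl]
  have hΛalg : Algebra.IsAlgebraic L Λ := IsAlgClosure.isAlgebraic
  have hLK : ∀ f : K, IsIntegral L f → ∃ f' : L, algebraMap L K f' = f := by
    intro f hf
    have h1 : IsAlgebraic (Pool.Agent.X180.Iso.Acl (BaseField x)) f := by
      rw [← hLA]
      exact hf.isAlgebraic
    have h2 : f ∈ L := by
      rw [hLA]
      exact Pool.Agent.X180.Iso.acl_acl h1
    exact ⟨⟨f, h2⟩, rfl⟩
  have htr : Algebra.trdeg ℂ (BaseField x) = (∑ i, n i : ℕ) := Pool.Agent.X180.Multi.trdeg_BF hind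
  have htrL : Algebra.trdeg ℂ L = (∑ i, n i : ℕ) := by
    rw [← htr]
    exact Pool.Agent.X180.Abn.trdeg_of_alg hBL hLalg
  have hzF : AlgebraicIndependent ℂ (fun i => algebraMap Λ F (z i)) :=
    hzi.map' (f := IsScalarTower.toAlgHom ℂ Λ F) (algebraMap Λ F).injective
  refine ⟨fun hk' => ?_, fun hnum => ?_⟩
  · have hk : KodTr ℂ M t h := by
      rcases hk' with hk | ⟨rfl, rfl⟩
      · exact hk
      · exact kodTr_zero
    have hgeo := geo_ab hy.2.1 (Pool.Agent.X180.Iso.trdeg_rel hy.2.1 htr) hLalg hF
      (fun z => ((hΛalg.isAlgebraic z).algHom (IsScalarTower.toAlgHom L Λ F))) M hM hdom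
      (Pool.Agent.X180.Abn.kodGe_of_kodTr hk) hz hzF {P | IsPrimeDivisor y P}
    refine ⟨kodTr_of_canonical hy.1 hy.2.1 hy.2.2 (multi_kodC hn hℓ hr hbnd hx0 hind hy.2.1
      (τ := 1) le_rfl (fun P hP _ => high_of hn hℓ hr hx0 hind hm (fun v k hk => ?_) hP) hgeo.2),
      fun hm' => ?_⟩
    · have h1 := (Rat.cast_le (K := ℝ)).2 hk
      push_cast at h1
      exact h1
    · obtain ⟨τ, hτ, hτk⟩ := exists_tau (q := q) hd1
      exact kodTr_of_canonical hy.1 hy.2.1 hy.2.2 ((multi_kod hn hℓ hr hbnd hx0 hind hy.2.1
        hτ.le (fun P hP _ => high_of hn hℓ hr hx0 hind hm' hτk hP) hgeo.1).2 hτ)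
  · obtain ⟨e, he⟩ : ∃ e, (∑ j, g j) + t = e + 1 := ⟨(∑ j, g j) + t - 1, by omega⟩
    have hK := hy.2.1
    rw [he] at hnum hK ⊢
    exact Pool.Agent.Y174.easy_add ‹Algebra.EssFiniteType ℂ L› ‹Algebra.EssFiniteType ℂ K› hF hLK
      htrL hK hnum

end Pool.Agent.Results.MP_5ff3c6_ag.CoverFamiliesOverArrangements
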