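import Pool.Agent.X180.Multi.Fib
import Pool.Agent.X180.Iso.Sys
import Pool.Agent.Y191.LcRam

/-!
# Abundance for varieties over products of projective spaces with arbitrary arrangements, whose
fibres correspond to moving log canonical arrangements

For `i < m` let `ℓ i k = 0`, `k < q i`, be hyperplanes in projective `n i`-space, an arbitrary
arrangement which is not reducible. Let `X` be a projective variety with canonical singularities (for
instance a minimal variety or a manifold) with a dominant rational map to the product of the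
projective spaces, of any relative dimension. Suppose:

* (the base) if `v i k` are the multiplicities of the hyperplanes at a prime divisor `P` of `X`, not
  all zero, then `∑ i, v i (k i) / d i > 1` for some choice of hyperplanes `k i`, one for each factor.
  Here `d i` is `n i + 2`, or only `n i + 1` if the arrangement in the factor does not consist of
  `n i + 2` hyperplanes in general position. The bounds do not depend on the numbers of the
  hyperplanes, and the multiplicities in the different factors are added, so that the map may be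
  ramified as little as one likes over the hyperplanes of one factor along divisors which lie over
  hyperplanes of other factors as well;
* (the fibres) there is a correspondence between `X` and a relative product of projective spaces:
  a variety `X'` with a generically finite map `X' ⇢ X` (any finite extension `K'` of the function
  field `K`, ramified anywhere) and a generically finite map over the base of `X'` to
  `Y' × P^{r_1} × ... × P^{r_c}`, `r_j ≥ 1`, `Y'` finite over the base, and in each `P^{r_j}` there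
  are any hyperplanes `A j i = 0` which move with the point of `Y'`, with weights `w j i` in `[0, 1]`
  such that the arrangement is log canonical: the sum of the weights of hyperplanes with a common
  point is at most the codimension of their intersection. If `Q` is a place of `K'` over a prime
  divisor `P` of `X` which dominates the base, with ramification index `ε`, and `e j i` are the
  multiplicities of the hyperplanes at `Q`, not all zero, then `ε` is at most
  `∑ (mx_j - ∑ w j i e j i)`, where `mx_j` is the greatest sum of `r_j + 1` of the `e j i` whose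
  hyperplanes have no common point (`ε = 1`, if all `e j i` are zero); and if `Q` is a place of `K'`
  over a prime divisor of `P^{r_1} × ... × P^{r_c}` over the base, with ramification index `ρ`, and
  with ramification index `ε` over `K`, then `ρ - ε ≤ ∑ w j i e j i`.

Then `κ(X) = ν(X)`: `K_X` is pseudo-effective if and only if `∑ i, w j i ≥ r_j + 1` for all `j`; then
`κ(X) = ν(X) = ∑ i, n i + l`, where `l` is the sum of the `r_j` with `∑ i, w j i > r_j + 1`; otherwise
`κ(X) = ν(X) = -∞`. For minimal `X` this means that `K_X` is semiample (Kawamata). If the sums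
`∑ i, v i (k i) / d i` are only at least `1` then `κ(X) ≥ l ≥ 0` or `κ(X) = ν(X) = -∞`.

The language and the definitions of `Pool.Agent.Y172` are used: `X` is given by the homogeneous
coordinates `y` of its generic point, with values in the function field `K` of `X`; the prime divisors
of `X` are places `P` of `K`, `P.ord` is the order along `P`. The dominant rational map is given by
homogeneous coordinates `x i j` such that the affine coordinates `x i (j + 1) / x i 0` are
algebraically independent. `Form`, `Reducible`: `Pool/Agent/W602/Cov`.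

Proof: for an irreducible arrangement there are weights on the bases of the matroid such that the
products of the forms `det (d log)` have a positive slack at all flats; the product of these
pluricanonical forms of the factors, as a form of the base, is estimated with any `∑ n i` vector
fields on `X` (`Pool.Agent.X180.Multi`), and is multiplied by the norms to `K` of products of
determinants of logarithmic derivatives of the linear forms along the fibres of `X'`
(`Pool.Agent.Y191.lc_low`). For the upper bound, the sections of `m K_X + A` are pulled back to `X'`;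
their traces are polynomials of bounded degree in the coordinates of the factors with
`∑ i, w j i = r_j + 1`, and vanish if `∑ i, w j i < r_j + 1` for some `j` (`lc_ab`).
-/

set_option autoImplicit false

open FF Module Pool.Agent.W602.Cov Pool.Agent.W602.GT Pool.Agent.Y172 Pool.Agent.Y191

namespace Pool.Agent.Results.MP_5ff3c6_ag.MultiprojectiveFibrations

section base

/-- In suitable linear coordinates `X 0, ..., X n` each of the hyperplanes is one of `X j = 0` or
`X 0 + ... + X n = 0`. The arrangements with this property which are not reducible are, up to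
repetitions, the arrangements of `n + 2` hyperplanes in general position. -/
def Simplicial {n q : ℕ} (ℓ : Fin q → Form n) : Prop :=
  ∃ X : Basis (Fin (n + 1)) ℂ (Form n), ∀ i,
    (∃ c : ℂ, ℓ i = c • ∑ j, X j) ∨ ∃ (j : Fin (n + 1)) (c : ℂ), ℓ i = c • X j

/-- The bound for one arrangement in projective `n`-space: `n + 2`, and even `n + 1` if the
arrangement does not consist of `n + 2` hyperplanes in general position. -/
def Bound {n q : ℕ} (ℓ : Fin q → Form n) (d : ℕ) : Prop :=
  d = n + 2 ∨ (d = n + 1 ∧ ¬ Simplicial ℓ)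

/-- The value of a linear form at a vector over `K`. -/
noncomputable def form {n : ℕ} {K : Type} [Field K] [Algebra ℂ K] (φ : Form n)
    (x : Fin (n + 1) → K) : K := ∑ j, algebraMap ℂ K (φ (Pi.single j 1)) * x j

variable {m : ℕ} {n q : Fin m → ℕ} {K : Type} [Field K] [Algebra ℂ K]

/-- The affine coordinates `x i (j + 1) / x i 0` of the points with the homogeneous coordinates
`x i`. -/
def affine (x : ∀ i, Fin (n i + 1) → K) (b : (i : Fin m) × Fin (n i)) : K :=
  x b.1 b.2.succ / x b.1 0

/-- The function field of the product of the projective spaces. -/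
noncomputable def BaseField (x : ∀ i, Fin (n i + 1) → K) : IntermediateField ℂ K :=
  IntermediateField.adjoin ℂ (Set.range (affine x))

/-- The multiplicities over the arrangements of a variety with function field `K` and homogeneous
coordinates `x i` of a rational map to the product of the projective spaces: at every prime divisor
`P` of `X` the hyperplane `ℓ i k` has the order `a i + v i k`, where `a i` is the minimum of the orders
of all linear forms on the `i`-th factor, and if some `v i k` is not `0` then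
`∑ i, v i (k i) / d i` has the property `C` for some `k`. -/
def Multiplicities {N : ℕ} (y : Fin (N + 1) → K) (ℓ : ∀ i, Fin (q i) → Form (n i))
    (x : ∀ i, Fin (n i + 1) → K) (d : Fin m → ℕ) (C : ℚ → Prop) : Prop :=
  ∀ P : Place ℂ K, IsPrimeDivisor y P → ∀ (a : Fin m → ℤ) (v : ∀ i, Fin (q i) → ℕ),
    (∀ i (φ : Form (n i)), form φ (x i) = 0 ∨ a i ≤ P.ord (form φ (x i))) →
    (∀ i, ∃ φ : Form (n i), form φ (x i) ≠ 0 ∧ P.ord (form φ (x i)) = a i) →
    (∀ i k, P.ord (form (ℓ i k) (x i)) = a i + v i k) → (∃ i, v i ≠ 0) →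
    ∃ k : ∀ i, Fin (q i), C (∑ i, (v i (k i) : ℚ) / d i)

end base

section

variable {K : Type} [Field K] [Algebra ℂ K] {N : ℕ}

/-- `X` is a projective variety of dimension `n` with canonical singularities. -/
def IsCanonicalVariety (y : Fin (N + 1) → K) (n : ℕ) : Prop :=
  NormalModel y ∧ Algebra.trdeg ℂ K = n ∧ Canonical y n

/-- There is a finite extension `K'` of `K`, and the `u ⟨j, k⟩` are the affine coordinates of a
generically finite map, over the variety with the function field `L`, of a variety with the function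
field `K'` to a product of projective spaces of dimensions `r j ≥ 1`; `A j i` are the coefficients of
hyperplanes, algebraic over `L`, with weights `w j i` in `[0, 1]` such that the arrangement is log
canonical (`LcArr`). The multiplicities are bounded at the places over the prime divisors of `X`
which are trivial on `L` (`LcHor`) and at the places over the prime divisors of the product
(`RamK`). -/
def Fibres (y : Fin (N + 1) → K) (L : IntermediateField ℂ K) {c : ℕ}
    (r s : Fin c → ℕ) (w : ∀ j, Fin (s j) → ℚ) : Prop :=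
  (∀ j, 1 ≤ r j ∧ ∀ i, 0 ≤ w j i ∧ w j i ≤ 1) ∧
  ∃ (K' : Type) (_ : Field K') (_ : Algebra ℂ K') (_ : Algebra K K') (_ : IsScalarTower ℂ K K')
    (_ : FiniteDimensional K K') (A : ∀ j, Fin (s j) → Fin (r j + 1) → K')
    (u : (Σ j, Fin (r j)) → K'),
    LcArr (upF K' L) A w ∧ IsTranscendenceBasis (upF K' L) u ∧
    LcHor L A u w {P | IsPrimeDivisor y P} (fun _ => 0) ∧ RamK K (upF K' L) A u w

/-- the sum of the dimensions `r j` for which the sum of the weights is greater than `r j + 1` -/
def big {c : ℕ} (r s : Fin c → ℕ) (w : ∀ j, Fin (s j) → ℚ) : ℕ :=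
  ∑ j, if (r j + 1 : ℚ) < ∑ i, w j i then r j else 0

/-- If the sums of the weights are at least `r j + 1` then the Kodaira dimension and the numerical
dimension (with respect to any effective integral divisor `A`) of `K_X` are `p + big`; otherwise both
are `-∞`. -/
def Abundance (y : Fin (N + 1) → K) (n p : ℕ) {c : ℕ} (r s : Fin c → ℕ)
    (w : ∀ j, Fin (s j) → ℚ) : Prop :=
  ((∀ j, (r j + 1 : ℚ) ≤ ∑ i, w j i) → kodairaDim y n 0 = ((p + big r s w : ℕ) : WithBot ℕ) ∧
    ∀ A, Effective y A → Integral y A → numericalDim y n 0 A = ((p + big r s w : ℕ) : EReal)) ∧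
  ((∃ j, ∑ i, w j i < (r j + 1 : ℚ)) → kodairaDim y n 0 = ⊥ ∧
    ∀ A, Effective y A → numericalDim y n 0 A = ⊥)

/-- If the sums of the weights are at least `r j + 1` then the Kodaira dimension of `X` is at least
`k`; otherwise the Kodaira dimension and the numerical dimension (with respect to any effective
divisor `A`) are `-∞`. -/
def Nonvanishing (y : Fin (N + 1) → K) (n k : ℕ) {c : ℕ} (r s : Fin c → ℕ)
    (w : ∀ j, Fin (s j) → ℚ) : Prop :=
  ((∀ j, (r j + 1 : ℚ) ≤ ∑ i, w j i) → (k : WithBot ℕ) ≤ kodairaDim y n 0) ∧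
  ((∃ j, ∑ i, w j i < (r j + 1 : ℚ)) → kodairaDim y n 0 = ⊥ ∧
    ∀ A, Effective y A → numericalDim y n 0 A = ⊥)

end

theorem exists_idx {c : ℕ} (r q : Fin c → ℕ) (w : ∀ j, Fin (q j) → ℚ) :
    ∃ κ : Fin (big r q w) → Σ j, Fin (r j), Function.Injective κ ∧
      ∀ i, (r (κ i).1 + 1 : ℚ) < ∑ i', w (κ i).1 i' := by
  classical
  have h1 : Fintype.card {x : Σ j, Fin (r j) // (r x.1 + 1 : ℚ) < ∑ i, w x.1 i} = big r q w := by
    rw [Fintype.card_subtype, Finset.card_filter, Fintype.sum_sigma]
    refine Finset.sum_congr rfl fun j _ => ?_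
    change ∑ _k : Fin (r j), (if (r j + 1 : ℚ) < ∑ i, w j i then 1 else 0) = _
    rw [Finset.sum_const, Finset.card_univ, Fintype.card_fin, smul_eq_mul, mul_ite, mul_one,
      mul_zero]
  let φ := Fintype.equivFinOfCardEq h1
  exact ⟨fun i => (φ.symm i : Σ j, Fin (r j)), fun a b hab => φ.symm.injective (Subtype.ext hab),
    fun i => (φ.symm i).2⟩

theorem abundance_of {K : Type} [Field K] [Algebra ℂ K] {N p c : ℕ} {y : Fin (N + 1) → K}
    {r s : Fin c → ℕ} {w : ∀ j, Fin (s j) → ℚ} {L : IntermediateField ℂ K}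
    (hy : IsCanonicalVariety y (p + ∑ j, r j)) {K' : Type} [Field K'] [Algebra ℂ K']
    [Algebra K K'] [IsScalarTower ℂ K K'] [FiniteDimensional K K']
    {A : ∀ j, Fin (s j) → Fin (r j + 1) → K'}
    {u : (Σ j, Fin (r j)) → K'} (hw : ∀ j, 1 ≤ r j ∧ ∀ i, 0 ≤ w j i ∧ w j i ≤ 1)
    (hA : LcArr (upF K' L) A w) (hu : IsTranscendenceBasis (upF K' L) u)
    (hC : RamK K (upF K' L) A u w)
    (hK : (∀ j, (r j + 1 : ℚ) ≤ ∑ i, w j i) → KodairaGe (p + ∑ j, r j) {P | IsPrimeDivisor y P}
      (fun _ => 0) (p + big r s w)) : Abundance y (p + ∑ j, r j) p r s w := by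
  have h00 : Effective y (0 : Place ℂ K → ℚ) := ⟨fun _ _ => le_rfl, by simp⟩
  obtain ⟨h1, h2⟩ := lc_ab hy.1 hy.2.1 h00 hA.1 hu (fun j => (hw j).1)
    (fun j i => ((hw j).2 i).1) (fun j i => ((hw j).2 i).2) (hC.cor hy.2.1 hy.2.2 hu)
  refine ⟨fun h => h2 (p + big r s w) h ?_ ?_, h1⟩
  · rw [add_assoc, big, ← Finset.sum_add_distrib]
    congr 1
    refine Finset.sum_congr rfl fun j _ => ?_
    rcases lt_or_eq_of_le (h j) with h3 | h3
    · rw [if_pos h3, if_neg h3.ne', add_zero]
    · rw [if_neg (not_lt.2 h3.symm.le), if_pos h3.symm, zero_add]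
  · have h3 := hK h
    have h4 : (fun P => (((0 : Place ℂ K → ℚ) P : ℚ) : ℝ)) = fun _ : Place ℂ K => (0 : ℝ) :=
      funext fun P => Rat.cast_zero
    rw [h4]
    exact h3

theorem nonvanishing_of {K : Type} [Field K] [Algebra ℂ K] {N n k c : ℕ} {y : Fin (N + 1) → K}
    {r s : Fin c → ℕ} {w : ∀ j, Fin (s j) → ℚ} {L : IntermediateField ℂ K}
    (hy : IsCanonicalVariety y n) (hle : ∑ j, r j ≤ n) {K' : Type} [Field K'] [Algebra ℂ K']
    [Algebra K K'] [IsScalarTower ℂ K K'] [FiniteDimensional K K']
    {A : ∀ j, Fin (s j) → Fin (r j + 1) → K'}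
    {u : (Σ j, Fin (r j)) → K'} (hw : ∀ j, 1 ≤ r j ∧ ∀ i, 0 ≤ w j i ∧ w j i ≤ 1)
    (hA : LcArr (upF K' L) A w) (hu : IsTranscendenceBasis (upF K' L) u)
    (hC : RamK K (upF K' L) A u w)
    (hK : (∀ j, (r j + 1 : ℚ) ≤ ∑ i, w j i) → KodairaGe n {P | IsPrimeDivisor y P}
      (fun _ => 0) k) : Nonvanishing y n k r s w := by
  have h00 : Effective y (0 : Place ℂ K → ℚ) := ⟨fun _ _ => le_rfl, by simp⟩
  refine ⟨fun hws => ?_, (lc_ab hy.1 hy.2.1 h00 hA.1 hu (fun j => (hw j).1)
    (fun j i => ((hw j).2 i).1) (fun j i => ((hw j).2 i).2) (hC.cor hy.2.1 hy.2.2 hu)).1⟩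
  refine lc_nv hy.1 hy.2.1 h00 hA.1 hu (fun j => (hw j).1)
    (fun j i => ((hw j).2 i).1) (fun j i => ((hw j).2 i).2) (hC.cor hy.2.1 hy.2.2 hu) hws
    hle ?_
  have h4 : (fun P => (((0 : Place ℂ K → ℚ) P : ℚ) : ℝ)) = fun _ : Place ℂ K => (0 : ℝ) :=
    funext fun P => Rat.cast_zero
  rw [h4]
  exact hK hws


theorem base_kod {m s lam N : ℕ} {n q : Fin m → ℕ} {K : Type} [Field K] [Algebra ℂ K]
    {y : Fin (N + 1) → K} {ℓ : ∀ i, Fin (q i) → Form (n i)}
    (hn : ∀ i, 1 ≤ n i) (hℓ : ∀ i k, ℓ i k ≠ 0) (hr : ∀ i, ¬ Reducible (ℓ i)) {d : Fin m → ℕ}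
    (hd : ∀ i, Bound (ℓ i) (d i)) {x : ∀ i, Fin (n i + 1) → K} (hx0 : ∀ i, x i 0 ≠ 0)
    (hind : AlgebraicIndependent ℂ (affine x)) (hK : Algebra.trdeg ℂ K = (∑ i, n i + s : ℕ))
    (hm : Multiplicities y ℓ x d fun z => 1 ≤ z)
    (hθ : ∃ M : ℕ, 0 < M ∧ ∃ θ : Fin (lam + 1) → (Fin s → Derivation (BaseField x) K K) → K,
      (∀ b, Pool.Agent.TH585.SV.FibSec (∑ i, n i + s) M {P | IsPrimeDivisor y P} (fun _ => 0)
        (BaseField x) (θ b)) ∧ ∃ G, θ 0 G ≠ 0 ∧
        AlgebraicIndependent (BaseField x) (fun i : Fin lam => θ i.succ G / θ 0 G)) :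
    KodairaGe (∑ i, n i + s) {P | IsPrimeDivisor y P} (fun _ => 0) lam ∧
      (Multiplicities y ℓ x d (fun z => 1 < z) →
        KodairaGe (∑ i, n i + s) {P | IsPrimeDivisor y P} (fun _ => 0) (∑ i, n i + lam)) := by
  classical
  obtain ⟨M, hM, θ, hθ, hne⟩ := hθ
  have hd' : ∀ i, Pool.Agent.TH756.PR.Bnd (ℓ i) (d i) := fun i =>
    (hd i).imp id fun h => ⟨h.1, Or.inr h.2⟩
  have hd1 : ∀ i, 1 ≤ d i := fun i => by
    rcases hd i with h | h
    · omega
    · omega
  have hspan : ∀ i, Submodule.span ℂ (Set.range (ℓ i)) = ⊤ := fun i =>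
    Pool.Agent.W392.CG.span_top (hn i) (ℓ i) (hr i)
  have hlx : ∀ i k, Pool.Agent.W602.Cov.G.lf (ℓ i k) (x i) ≠ 0 := fun i k =>
    Pool.Agent.TH152.AC.lf_ne (hx0 i) (hind.comp
      (fun j : Fin (n i) => (⟨i, j⟩ : (i : Fin m) × Fin (n i))) (fun j j' h => by simpa using h))
      (hℓ i k)
  let e : ((i : Fin m) × Fin (n i)) ≃ Fin (∑ i, n i) := finSigmaFinEquiv
  have huu : AlgebraicIndependent ℂ (Pool.Agent.TH756.PR.uu e x) :=
    hind.comp e.symm e.symm.injective
  have hrange : Set.range (Pool.Agent.TH756.PR.uu e x) = Set.range (affine x) :=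
    e.symm.surjective.range_comp (affine x)
  have htr : Algebra.trdeg ℂ (BaseField x) = (∑ i, n i : ℕ) := by
    have h1 : AlgebraicIndependent ℂ (Pool.Agent.TH756.PR.uu e x) := huu
    have h2 := Pool.Agent.X180.Multi.trdeg_adjoin h1
    rw [hrange] at h2
    exact h2
  have hhigh : ∀ τ : ℝ, (∃ C : ℚ → Prop, Multiplicities y ℓ x d C ∧
      ∀ v : ∀ i, Fin (q i) → ℕ, ∀ k : ∀ i, Fin (q i), C (∑ i, (v i (k i) : ℚ) / d i) →
        τ ≤ ∑ i, (v i (k i) : ℝ) / d i) →
      ∀ P ∈ {P | IsPrimeDivisor y P}, Divisorial (∑ i, n i + s) P →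
        Pool.Agent.X180.Multi.High ℓ x d (τ * (1 - 0)) P := by
    rintro τ ⟨C, hC, hτ⟩ P hP _ a v hord hsp hv0
    have h1 := Pool.Agent.TH756.PR.nrm hspan hlx hord hsp
    obtain ⟨k, hk⟩ := hC P hP a v h1.1 h1.2.1 h1.2.2 hv0
    refine ⟨k, ?_⟩
    rw [sub_zero, mul_one]
    exact hτ v k hk
  refine ⟨(Pool.Agent.X180.Multi.multi_fib (X := {P | IsPrimeDivisor y P}) e d hd1 hspan
    (fun i => Pool.Agent.TH756.PR.slack_of_bnd (hn i) (hℓ i) (hr i) (hd' i)) hlx hx0 huu hK htr
    (fun j => IntermediateField.subset_adjoin ℂ _ ⟨e.symm j, rfl⟩)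
    (fun f hf => by
      rw [hrange]
      exact Pool.Agent.X180.Multi.isAlgebraic_of_mem_adjoin hf)
    (δ₁ := fun _ => 0) (fun _ _ => le_rfl) (fun _ _ => by simp) le_rfl
    (hhigh 1 ⟨_, hm, fun v k hk => ?_⟩) hM hθ hne).1, fun hm' => ?_⟩
  · have h1 := (Rat.cast_le (K := ℝ)).2 hk
    push_cast at h1
    exact h1
  · obtain ⟨T, hT⟩ : ∃ T, T = ∏ i, d i := ⟨_, rfl⟩
    have hTpos : 0 < T := by
      rw [hT]
      exact Finset.prod_pos fun i _ => hd1 i
    have hTr : (0 : ℝ) < T := by exact_mod_cast hTpos
    refine (Pool.Agent.X180.Multi.multi_fib (X := {P | IsPrimeDivisor y P}) e d hd1 hspan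
      (fun i => Pool.Agent.TH756.PR.slack_of_bnd (hn i) (hℓ i) (hr i) (hd' i)) hlx hx0 huu hK htr
      (fun j => IntermediateField.subset_adjoin ℂ _ ⟨e.symm j, rfl⟩)
      (fun f hf => by
        rw [hrange]
        exact Pool.Agent.X180.Multi.isAlgebraic_of_mem_adjoin hf)
      (δ₁ := fun _ => 0) (τ := 1 + 1 / T) (fun _ _ => le_rfl) (fun _ _ => by simp)
      (by
        have : (0 : ℝ) < 1 / T := by positivity
        linarith)
      (hhigh _ ⟨_, hm', fun v k hk => ?_⟩) hM hθ hne).2 (by
        have : (0 : ℝ) < 1 / T := by positivity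
        linarith)
    have hint : ∑ i, (v i (k i) : ℚ) / d i =
        ((∑ i, v i (k i) * ∏ j ∈ Finset.univ.erase i, d j : ℕ) : ℚ) / T := by
      push_cast
      rw [Finset.sum_div]
      refine Finset.sum_congr rfl fun i _ => ?_
      have hdi : (d i : ℚ) ≠ 0 := by
        have := hd1 i
        positivity
      have h5 : (T : ℚ) = (∏ j ∈ Finset.univ.erase i, (d j : ℚ)) * d i := by
        rw [hT, ← Finset.prod_erase_mul _ _ (Finset.mem_univ i)]
        push_cast
        rfl
      have h6 : (∏ j ∈ Finset.univ.erase i, (d j : ℚ)) ≠ 0 :=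
        Finset.prod_ne_zero_iff.2 fun j _ => by
          have := hd1 j
          positivity
      rw [h5]
      field_simp
    have hTq : (0 : ℚ) < T := by exact_mod_cast hTpos
    have hge : 1 + 1 / (T : ℚ) ≤ ∑ i, (v i (k i) : ℚ) / d i := by
      change 1 < ∑ i, (v i (k i) : ℚ) / d i at hk
      rw [hint] at hk ⊢
      rw [lt_div_iff₀ hTq, one_mul] at hk
      rw [le_div_iff₀ hTq, add_mul, one_mul, one_div, inv_mul_cancel₀ hTq.ne']
      exact_mod_cast hk
    have h1 := (Rat.cast_le (K := ℝ)).2 hge
    push_cast at h1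
    exact h1

/-- **Abundance.** Let `ℓ i` be arbitrary arrangements of hyperplanes, which are not reducible, in
projective spaces of dimensions `n i ≥ 1`, `d i` the bounds. Let `X` be a projective variety with
canonical singularities of dimension `∑ i, n i + ∑ j, r j` with a dominant rational map to the
product of the projective spaces, given by homogeneous coordinates `x i`, such that at each prime
divisor of `X` over one of the hyperplanes `∑ i, v i (k i) / d i ≥ 1` for the multiplicities `v` and
some `k`, and let the fibres be as in `Fibres`. Then `κ(X) ≥ big ≥ 0` if `r j + 1 ≤ ∑ i, w j i` for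
all `j`, and `κ(X) = ν(X) = -∞` otherwise. If the multiplicities satisfy
`∑ i, v i (k i) / d i > 1` then `κ(X) = ν(X) = ∑ i, n i + big` in the first case. -/
theorem result {m : ℕ} (n q : Fin m → ℕ) (hn : ∀ i, 1 ≤ n i)
    (ℓ : ∀ i, Fin (q i) → Form (n i)) (hℓ : ∀ i k, ℓ i k ≠ 0) (hr : ∀ i, ¬ Reducible (ℓ i))
    (d : Fin m → ℕ) (hd : ∀ i, Bound (ℓ i) (d i)) (K : Type) [Field K] [Algebra ℂ K]
    (N c : ℕ) (r s : Fin c → ℕ) (y : Fin (N + 1) → K)
    (hy : IsCanonicalVariety y (∑ i, n i + ∑ j, r j)) (x : ∀ i, Fin (n i + 1) → K)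
    (hx0 : ∀ i, x i 0 ≠ 0) (hind : AlgebraicIndependent ℂ (affine x))
    (hm : Multiplicities y ℓ x d fun z => 1 ≤ z) (w : ∀ j, Fin (s j) → ℚ)
    (hF : Fibres y (BaseField x) r s w) :
    Nonvanishing y (∑ i, n i + ∑ j, r j) (big r s w) r s w ∧
      (Multiplicities y ℓ x d (fun z => 1 < z) →
        Abundance y (∑ i, n i + ∑ j, r j) (∑ i, n i) r s w) := by
  obtain ⟨hw, K', _, _, _, _, _, A, u, hA, hu, hH, hC⟩ := hF
  obtain ⟨κ, hκ, hκs⟩ := exists_idx r s w
  have htr : Algebra.trdeg ℂ (BaseField x) = (∑ i, n i : ℕ) := by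
    let e : ((i : Fin m) × Fin (n i)) ≃ Fin (∑ i, n i) := finSigmaFinEquiv
    have h2 := Pool.Agent.X180.Multi.trdeg_adjoin (hind.comp e.symm e.symm.injective)
    have hrange : Set.range (affine x ∘ e.symm) = Set.range (affine x) :=
      e.symm.surjective.range_comp (affine x)
    rw [hrange] at h2
    exact h2
  have h1 := fun hws => base_kod hn hℓ hr hd hx0 hind hy.2.1 hm
    (lc_low (N := ∑ i, n i + ∑ j, r j) (X := {P | IsPrimeDivisor y P}) (δ := fun _ => 0)
      (Pool.Agent.X180.Iso.trdeg_rel' hy.2.1 htr) hA finSigmaFinEquiv hu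
      (fun j i => ((hw j).2 i).1) hws hκ hκs (fun _ _ => le_rfl) hH)
  exact ⟨nonvanishing_of hy (by omega) hw hA hu hC fun hws => (h1 hws).1,
    fun hm' => abundance_of hy hw hA hu hC fun hws => (h1 hws).2 hm'⟩

end Pool.Agent.Results.MP_5ff3c6_ag.MultiprojectiveFibrations
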