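import Pool.Agent.Y174.H3

/-!
MP_5ff3c6_ag, Q1: abundance for minimal models of quotients of varieties of maximal Albanese dimension
by finite groups whose action on a space of 1-forms satisfies the criterion of Reid and Tai.
-/

set_option autoImplicit false

open FF IntermediateField Pool.Agent.W619.PQ Pool.Agent.W619.TW Pool.Agent.W619.Y Pool.Agent.Y174

namespace Pool.Agent.Results.MP_5ff3c6_ag.ReidTaiQuotients

/-- Let `Z` be a projective manifold of dimension `n` with function field `L`, `G` a finite group of
birational automorphisms of `Z`, and `W` a `G`-stable space of regular 1-forms on `Z` which generates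
the cotangent bundle at the generic point (so `Z` has maximal Albanese dimension). Assume the
criterion of Reid and Tai for terminal quotients for the action on `W`: for each `g ≠ 1` in `G` which
acts trivially on the residue field of a prime divisor over `Z`, and any `n` linearly independent
eigenforms of `g` in `W` with eigenvalues `ζ ^ a i`, `0 ≤ a i < d`, `ζ` a primitive `d`-th root of
unity, `d` the order of `g`, the sum of the `a i` is greater than `d`. Let `X` be a variety with
terminal singularities birational to `Z / G`. Then `κ (X) = κ (Z) ≥ 0` and `ν (X) ≤ ν (Z)`. -/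
theorem result {L : Type} [Field L] [Algebra ℂ L] [Algebra.EssFiniteType ℂ L] {n : ℕ}
    (hn : Algebra.trdeg ℂ L = n) (G : Subgroup (L ≃ₐ[ℂ] L)) [Finite G]
    {W : Submodule ℂ (Derivation ℂ L L →ₗ[L] L)}
    (hreg : ∀ η ∈ W, ∀ w : Place ℂ L, IsDivisorial w n → ∀ D : Derivation ℂ L L,
      (∀ f, w.Reg f → w.Reg (D f)) → w.Reg (η D))
    (hspan : Submodule.span L (W : Set (Derivation ℂ L L →ₗ[L] L)) = ⊤)
    (hG : ∀ g ∈ G, ∀ η ∈ W, gForm g η ∈ W) (hRT : ReidTai n G W) :
    MaxAlb ℂ L n ∧ KodTr ℂ (fixedField G) n 0 ∧
      (∀ a, KodTr ℂ (fixedField G) n a ↔ KodTr ℂ L n a) ∧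
      ∀ a, NumLe ℂ L n (fun _ => False) a → NumLe ℂ (fixedField G) n (fun _ => False) a :=
  main4 hn ‹Algebra.EssFiniteType ℂ L› G hreg hspan hG hRT

end Pool.Agent.Results.MP_5ff3c6_ag.ReidTaiQuotients
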