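import Pool.Agent.X180.TP.Proof

/-!
# Abundance for towers of fibrations over products of projective spaces with arbitrary arrangements

For `i < m` let `ℓ i k = 0`, `k < q i`, be hyperplanes in projective `n i`-space, an arbitrary
arrangement which is not reducible. Let `X` be a projective variety with canonical singularities (for
instance a minimal variety or a manifold) with dominant rational maps

  `X ⇢ W_l ⇢ ... ⇢ W_1 ⇢ W_0 = P^{n_1} × ... × P^{n_m}`, `l ≥ 0`.

Suppose:

* (the base) if `v i k` are the multiplicities of the hyperplanes at a prime divisor `P` of `X`, not
  all zero, then `∑ i, v i (k i) / d i > 1` for some choice of hyperplanes `k i`, one for each factor.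
  Here `d i` is `n i + 2`, or only `n i + 1` if the arrangement in the factor does not consist of
  `n i + 2` hyperplanes in general position. The bounds do not depend on the numbers of the
  hyperplanes, and the multiplicities in the different factors are added, so that the map may be
  ramified as little as one likes over the hyperplanes of one factor along divisors which lie over
  hyperplanes of other factors as well;
* (the steps of the tower) for each `i < l` the fibres of `W_{i+1}` over `W_i` are of one of the
  following two kinds.

  (a) There is a correspondence between `W_{i+1}` and a relative product of projective spaces over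
  `W_i`: a variety `W'` with a generically finite map `W' ⇢ W_{i+1}` (ramified anywhere) and a
  generically finite map over `W_i` to `W'' × P^{r_1} × ... × P^{r_c}`, `r_j ≥ 1`, `W''` finite over
  `W_i`, and in each `P^{r_j}` there are any hyperplanes `A j k = 0`, in any position, which move with
  the point of `W''`, with weights `w j k ≥ 0` such that the arrangement is log canonical (the sum of
  the weights of hyperplanes with a common point is at most the codimension of their intersection)
  and of log general type (`∑ k, w j k > r_j + 1`). If `q` is a place of the function field of `W'`
  over a prime divisor `p` of a model of `W_{i+1}` which dominates `W_i`, with ramification index `ε`,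
  and `e j k` are the multiplicities of the hyperplanes at `q`, not all zero, then
  `ε ≤ ∑ (mx_j - ∑ w j k e j k)`, where `mx_j` is the greatest sum of `r_j + 1` of the `e j k` whose
  hyperplanes have no common point (`ε = 1`, if all `e j k` are zero).

  (b) After a generically finite base change `W_i' → W_i` the variety `W_{i+1} ×_{W_i} W_i'` has a
  generically finite rational map to `W_i' × F`, where `F` is a smooth projective variety of general
  type. So the fibres are any covers of `F`, for instance with branch divisors which move;
* (the fibres of `X` over `W_l`, of any log Kodaira dimension) there is a correspondence `X'` as in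
  (a) between `X` and a relative product `P^{r_1} × ... × P^{r_c}` over `W_l`, with log canonical
  moving hyperplane arrangements with weights in `[0, 1]` and the same condition at the prime divisors
  of `X` which dominate `W_l`; and if `Q` is a place of the function field of `X'` over a prime divisor
  of `P^{r_1} × ... × P^{r_c}` over `W_l`, with ramification index `ρ`, and with ramification index `ε`
  over `X`, then `ρ - ε ≤ ∑ w j k e j k`.

Then `κ(X) = ν(X)`: `K_X` is pseudo-effective if and only if `∑ k, w j k ≥ r_j + 1` for all `j` (for
the fibres over `W_l`); then `κ(X) = ν(X) = dim W_l + λ`, where `λ` is the sum of the `r_j` with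
`∑ k, w j k > r_j + 1`; otherwise `κ(X) = ν(X) = -∞`. For minimal `X` this means that `K_X` is
semiample (Kawamata). If the sums `∑ i, v i (k i) / d i` are only at least `1` then `K_X` is
pseudo-effective under the same condition, and then `κ(X) ≥ dim W_l - dim W_0 + λ ≥ 0`.

For instance, the fibres of `W_{i+1}` over `W_i` may be any hyperelliptic curves of genus `≥ 2`, covers
of projective spaces which are highly ramified along arbitrary moving hyperplanes, étale covers or
quotients by free group actions of products of such varieties, or covers of a fixed surface of general
type, in any order, and the fibres of `X` over `W_l` may be elliptic curves, products of elliptic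
curves and their étale quotients, or K3 surfaces which are double planes over six lines, with any
variation.

The language and the definitions of `Pool.Agent.Y172` are used: `X` is given by the homogeneous
coordinates `y` of its generic point, with values in the function field `K` of `X`; the prime divisors
of `X` are places `P` of `K`, `P.ord` is the order along `P`; `kodairaDim` and `numericalDim` are the
literal definitions of the Kodaira and of the numerical dimension by means of the dimensions of the
spaces of sections of `m K_X` and of `m K_X + A`. The dominant rational map to the product is given by
homogeneous coordinates `x i j` such that the affine coordinates `x i (j + 1) / x i 0` are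
algebraically independent. The varieties `W_i` are given by their function fields `E i`, subfields of
`K`. `Form`, `Reducible`: `Pool/Agent/W602/Cov`.

Proof: the forms of `W_{i+1}` along the fibres over `W_i` are the norms of products of determinants of
logarithmic derivatives of the linear forms (`Pool.Agent.Y191.lc_low`), or the norms of the pull backs
of the pluricanonical forms of `F` (`Pool.Agent.X180.Iso.fib_forms`). Their pull backs to `X` are
multiplied; the products are estimated inductively, with adapted regular vector fields
(`Pool.Agent.X180.Tow`). They are multiplied by the forms of the base: for an irreducible arrangement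
there are weights on the bases of the matroid such that the products of the forms `det (d log)` have a
positive slack at all flats (`Pool.Agent.X180.Multi`). For the upper bound, the sections of
`m K_X + A` are pulled back to `X'`; their traces are polynomials of bounded degree in the coordinates
of the factors with `∑ k, w j k = r_j + 1`, and vanish if `∑ k, w j k < r_j + 1` for some `j`
(`Pool.Agent.Y191.lc_ab`).
-/

set_option autoImplicit false

open FF Module Pool.Agent.W602.Cov Pool.Agent.W602.GT Pool.Agent.Y172 Pool.Agent.Y191
open Pool.Agent.X180.TP

namespace Pool.Agent.Results.MP_5ff3c6_ag.TowersOverProducts

/-- **Abundance.** Let `ℓ i` be arbitrary arrangements of hyperplanes, which are not reducible, in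
projective spaces of dimensions `n i ≥ 1`, `d i` the bounds. Let `X` be a projective variety with
canonical singularities and `X ⇢ W_l ⇢ ... ⇢ W_0` a tower over the product `W_0` of the projective
spaces, given by homogeneous coordinates `x i`, whose steps have fibres of dimensions `e i` as in
`GeneralTypeFibres` or as in `DominatesConstant`, and let the fibres of `X` over `W_l` be as in
`Fibres`. Suppose that at each prime divisor of `X` over one of the hyperplanes
`∑ i, v i (k i) / d i ≥ 1` for the multiplicities `v` and some `k`. Then `κ(X) ≥ ∑ i, e i + big ≥ 0`
if `r j + 1 ≤ ∑ i, w j i` for all `j`, and `κ(X) = ν(X) = -∞` otherwise. If the multiplicities satisfy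
`∑ i, v i (k i) / d i > 1` then `κ(X) = ν(X) = dim W_l + big` in the first case. -/
theorem result {m : ℕ} (n q : Fin m → ℕ) (hn : ∀ i, 1 ≤ n i)
    (ℓ : ∀ i, Fin (q i) → Form (n i)) (hℓ : ∀ i k, ℓ i k ≠ 0) (hr : ∀ i, ¬ Reducible (ℓ i))
    (d : Fin m → ℕ) (hd : ∀ i, Bound (ℓ i) (d i)) (K : Type) [Field K] [Algebra ℂ K]
    (N l : ℕ) (E : Fin (l + 1) → IntermediateField ℂ K) (D : Fin (l + 1) → ℕ) (e : Fin l → ℕ)
    (c : ℕ) (r s : Fin c → ℕ) (y : Fin (N + 1) → K)
    (hy : IsCanonicalVariety y (D (Fin.last l) + ∑ j, r j)) (x : ∀ i, Fin (n i + 1) → K)
    (hx0 : ∀ i, x i 0 ≠ 0) (hind : AlgebraicIndependent ℂ (affine x)) (hE0 : E 0 = BaseField x)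
    (hT : IsTower E D e) (hm : Multiplicities y ℓ x d fun z => 1 ≤ z)
    (w : ∀ j, Fin (s j) → ℚ) (hF : Fibres y (E (Fin.last l)) r s w) :
    Nonvanishing y (D (Fin.last l) + ∑ j, r j) (∑ i, e i + big r s w) r s w ∧
      (Multiplicities y ℓ x d (fun z => 1 < z) →
        Abundance y (D (Fin.last l) + ∑ j, r j) (D (Fin.last l)) r s w) :=
  main n q hn ℓ hℓ hr d hd K N l E D e c r s y hy x hx0 hind hE0 hT hm w hF

end Pool.Agent.Results.MP_5ff3c6_ag.TowersOverProducts
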